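import Pool.Agent.Helper77.UN.Defs
import Pool.Agent.Helper13.UN.MEM
import Pool.Agent.Helper41.UN.PSUM
import Pool.Agent.Helper4.UN.WE
import Pool.Agent.Helper4.CR.SIG
import Pool.Agent.Helper57.CR.CNT

/-!
# UN-EQ: the value depends only on the regions at the vertices
-/

namespace Pool.Agent.Helper77.UN

open Finset
open Pool.Agent.Helper9.Kashaev (Piece Diagram)
open Pool.Agent.Helper9.FA (Item Cor Ang twists wfP labels)
open Pool.Agent.Helper9.TW (Lab Conn)
open Pool.Agent.Helper28.TX (PV Pot)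
open Pool.Agent.Helper77.ST
open Pool.Agent.Helper77.CR (Uni All ids cor mE EU ncup ncap bz Red)

variable {F : Type*} [Field F]

theorem All_eq {S : List (Item Unit)} (hc : Conn S) {c0 c1 : ℕ} {θ : List (PV ℕ)}
    {e : List (Bool × ℕ × ℕ)} (hU : Uni S c0 c1 [c0, c1] θ e) (_h0 : θ ≠ []) :
    All c0 c1 θ e = (θ.flatMap cor).toFinset.filter fun x => x ≠ c0 ∧ x ≠ c1 := by
  ext x
  constructor
  · intro hx
    by_contra hn
    obtain ⟨hids, hx0, hx1⟩ := Finset.mem_filter.1 hx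
    have hnθ : x ∉ θ.flatMap cor := fun h =>
      hn (Finset.mem_filter.2 ⟨List.mem_toFinset.2 h, hx0, hx1⟩)
    have hp := Pool.Agent.Helper77.CR.pot_map (fun y => decide (y = x)) hU.pot
    simp only [List.map_cons, List.map_nil, decide_eq_false (Ne.symm hx0),
      decide_eq_false (Ne.symm hx1)] at hp
    have ht := Pool.Agent.Helper77.CR.touch hc hp (by
      intro q hq htrue
      rw [List.mem_map] at hq
      obtain ⟨q', hq', rfl⟩ := hq
      simp only [cor, PV.map, List.mem_cons, List.not_mem_nil, or_false] at htrue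
      apply hnθ
      rw [List.mem_flatMap]
      refine ⟨q', hq', ?_⟩
      simp only [cor, List.mem_cons, List.not_mem_nil, or_false]
      rcases htrue with h | h | h | h
      · exact Or.inl (of_decide_eq_true h.symm).symm
      · exact Or.inr (Or.inl (of_decide_eq_true h.symm).symm)
      · exact Or.inr (Or.inr (Or.inl (of_decide_eq_true h.symm).symm))
      · exact Or.inr (Or.inr (Or.inr (of_decide_eq_true h.symm).symm)))
    simp only [ids, List.mem_toFinset, List.mem_append, List.mem_flatMap] at hids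
    rcases hids with (h | h) | ⟨y, hy, h⟩
    · simp only [List.mem_cons, List.not_mem_nil, or_false] at h
      rcases h with h | h
      · exact hx0 h
      · exact hx1 h
    · exact hnθ (List.mem_flatMap.2 h)
    · have := ht (y.1, decide (y.2.1 = x), decide (y.2.2 = x)) (by
        unfold mE
        exact List.mem_map.2 ⟨y, hy, rfl⟩)
      simp only [List.mem_cons, List.not_mem_nil, or_false] at h
      rcases h with h | h
      · exact of_decide_eq_false this.1 h.symm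
      · exact of_decide_eq_false this.2 h.symm
  · intro hx
    obtain ⟨h1, hx0, hx1⟩ := Finset.mem_filter.1 hx
    refine Finset.mem_filter.2 ⟨?_, hx0, hx1⟩
    simp only [ids, List.mem_toFinset, List.mem_append]
    exact Or.inl (Or.inr (List.mem_toFinset.1 h1))

open Classical in
/-- a function on the names which gives the values at the vertices -/
noncomputable def eq_h (c0 c1 : ℕ) (θ : List (PV ℕ)) (l : ℤ) (t : List (PV ℤ)) : ℕ → ℤ :=
  if H : ∃ h : ℕ → ℤ, h c0 = 0 ∧ h c1 = l ∧ t = θ.map (PV.map h) then H.choose else fun _ => 0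

theorem eq_h_spec {c0 c1 : ℕ} {θ : List (PV ℕ)} {l : ℤ} {t : List (PV ℤ)} {h : ℕ → ℤ}
    (h0 : h c0 = 0) (h1 : h c1 = l) (ht : t = θ.map (PV.map h)) :
    eq_h c0 c1 θ l t c0 = 0 ∧ eq_h c0 c1 θ l t c1 = l ∧
      t = θ.map (PV.map (eq_h c0 c1 θ l t)) := by
  have H : ∃ h : ℕ → ℤ, h c0 = 0 ∧ h c1 = l ∧ t = θ.map (PV.map h) := ⟨h, h0, h1, ht⟩
  unfold eq_h
  rw [dif_pos H]
  exact H.choose_spec

theorem eq_cor {θ : List (PV ℕ)} {h h' : ℕ → ℤ} (H : θ.map (PV.map h) = θ.map (PV.map h'))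
    {x : ℕ} (hx : x ∈ θ.flatMap cor) : h x = h' x := by
  rw [List.mem_flatMap] at hx
  obtain ⟨q, hq, hx⟩ := hx
  have h1 : PV.map h q = PV.map h' q := List.map_inj_left.1 H q hq
  simp only [PV.map, PV.mk.injEq] at h1
  simp only [cor, List.mem_cons, List.not_mem_nil, or_false] at hx
  rcases hx with rfl | rfl | rfl | rfl
  · exact h1.1
  · exact h1.2.1
  · exact h1.2.2.1
  · exact h1.2.2.2

/-- the elements of `pots` are the potentials -/
theorem eq_A {S : List (Item Unit)} (hc : Conn S) {c0 c1 : ℕ} {θ : List (PV ℕ)}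
    {e : List (Bool × ℕ × ℕ)} (hU : Uni S c0 c1 [c0, c1] θ e) (h0 : θ ≠ []) {l : ℕ}
    {y : List (PV ℤ) × List (Bool × ℤ × ℤ)} (hy : y ∈ pots l S [0, (l : ℤ)]) :
    eq_h c0 c1 θ l y.1 c0 = 0 ∧ eq_h c0 c1 θ l y.1 c1 = l ∧
      y.1 = θ.map (PV.map (eq_h c0 c1 θ l y.1)) ∧ y.2 = mE (eq_h c0 c1 θ l y.1) e ∧
      (∀ q ∈ y.1, VR l q) ∧ (∀ z ∈ y.2, |z.2.2 - z.2.1| ≤ l) ∧
      Pot 0 (l : ℤ) S [0, (l : ℤ)] y.1 y.2 := by
  have hr : InR l [0, (l : ℤ)] := by
    simp [InR]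
  obtain ⟨⟨k, hk⟩, hv, hz⟩ := pots_pot hr hy
  have hk0 : k = 0 := by
    have := (Pool.Agent.Helper77.CR.pot_edge hk).1
    simp at this
    exact this.symm
  subst hk0
  rw [zero_add] at hk
  obtain ⟨h, e0, e1, -, e3, e4⟩ := hU.uni ℤ 0 (l : ℤ) _ _ _ hk
  obtain ⟨f0, f1, f3⟩ := eq_h_spec e0 e1 e3
  refine ⟨f0, f1, f3, ?_, hv, hz, hk⟩
  rw [e4]
  unfold mE
  refine List.map_congr_left fun z hz' => ?_
  have hcorn : ∀ x ∈ ids [c0, c1] θ e, h x = eq_h c0 c1 θ l y.1 x := by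
    intro x hx
    rw [Pool.Agent.Helper77.CR.Cnt.ids_split, Finset.mem_insert, Finset.mem_insert] at hx
    rcases hx with rfl | rfl | hx
    · rw [e0, f0]
    · rw [e1, f1]
    · rw [All_eq hc hU h0] at hx
      exact eq_cor (e3.symm.trans f3) (List.mem_toFinset.1 (Finset.mem_filter.1 hx).1)
  have hz1 := Pool.Agent.Helper77.CR.Cnt.mem_ids_e (c := [c0, c1]) (θ := θ) hz'
  rw [hcorn _ hz1.1, hcorn _ hz1.2]

/-- the weight -/
theorem eq_wt (P : Par F) {S : List (Item Unit)} (hc : Conn S) {c0 c1 : ℕ} {θ : List (PV ℕ)}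
    {e : List (Bool × ℕ × ℕ)} (hU : Uni S c0 c1 [c0, c1] θ e) (h0 : θ ≠ []) (a : List ℤ)
    {y : List (PV ℤ) × List (Bool × ℤ × ℤ)} (hy : y ∈ pots P.l S [0, (P.l : ℤ)]) {h : ℕ → ℤ}
    (hh : h = eq_h c0 c1 θ P.l y.1) {s : ℤ}
    (hs : s = 2 * ∑ x ∈ (θ.flatMap cor).toFinset.filter (fun x => x ≠ c0 ∧ x ≠ c1), h x -
      (θ.map fun q => h q.B + h q.T).sum) :
    wt2 P a y = (List.zipWith (wv P) a y.1).prod * ((-1) ^ s * P.v ^ (s + (y.1.map dvx).sum)) := by
  obtain ⟨_, _, _, k4, _, k6, k7⟩ := eq_A hc hU h0 hy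
  have hE : sE y.2 = s := by
    rw [k4, ← hh, sE_eq hc hU, All_eq hc hU h0, hs]
  unfold wt2
  rw [we_prod P k7 k6, hE]

theorem RT_eq (P : Par F) {S S' : List (Item Unit)} (hc : Conn S) (hc' : Conn S') {c0 c1 : ℕ}
    {θ : List (PV ℕ)} {e e' : List (Bool × ℕ × ℕ)} (hU : Uni S c0 c1 [c0, c1] θ e)
    (hU' : Uni S' c0 c1 [c0, c1] θ e') (h0 : θ ≠ []) {a : List ℤ} (ha : a.length = θ.length) :
    RT P (tw S a) (ket [0]) [0] = RT P (tw S' a) (ket [0]) [0] := by
  have hr : InR P.l [0, (P.l : ℤ)] := by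
    simp [InR]
  have hst : stw P.l [0, (P.l : ℤ)] = [0] := by
    simp [stw, stt]
  have hwf : wfP 1 S 1 := by
    obtain ⟨n, hn, hw⟩ := Pool.Agent.Helper77.CR.pot_wf hU.pot
    simp only [List.length_cons, List.length_nil] at hn
    have : n = 1 := by omega
    rwa [this] at hw
  have hwf' : wfP 1 S' 1 := by
    obtain ⟨n, hn, hw⟩ := Pool.Agent.Helper77.CR.pot_wf hU'.pot
    simp only [List.length_cons, List.length_nil] at hn
    have : n = 1 := by omega
    rwa [this] at hw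
  have h1 := psum P hwf (a := a) (ha.trans (Pool.Agent.Helper77.CR.pot_len hU.pot))
    (s := [0, (P.l : ℤ)]) rfl hr
  have h2 := psum P hwf' (a := a) (ha.trans (Pool.Agent.Helper77.CR.pot_len hU'.pot))
    (s := [0, (P.l : ℤ)]) rfl hr
  rw [hst] at h1 h2
  rw [h1, h2]
  -- one direction
  have hmap : ∀ {S S' : List (Item Unit)} (_ : Conn S) (_ : Conn S') {e e' : List (Bool × ℕ × ℕ)}
      (_ : Uni S c0 c1 [c0, c1] θ e) (_ : Uni S' c0 c1 [c0, c1] θ e')
      (y : List (PV ℤ) × List (Bool × ℤ × ℤ)), y ∈ pots P.l S [0, (P.l : ℤ)] →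
      (y.1, mE (eq_h c0 c1 θ P.l y.1) e') ∈ pots P.l S' [0, (P.l : ℤ)] := by
    intro S S' hc hc' e e' hU hU' y hy
    obtain ⟨k1, k2, k3, _, k5, _, _⟩ := eq_A hc hU h0 hy
    have hp := Pool.Agent.Helper77.CR.pot_map (eq_h c0 c1 θ P.l y.1) hU'.pot
    rw [← k3] at hp
    simp only [List.map_cons, List.map_nil, k1, k2] at hp
    exact pots_of hc' hp k5
  refine Finset.sum_nbij' (fun y => (y.1, mE (eq_h c0 c1 θ P.l y.1) e'))
    (fun y => (y.1, mE (eq_h c0 c1 θ P.l y.1) e)) (fun y hy => hmap hc hc' hU hU' y hy)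
    (fun y hy => hmap hc' hc hU' hU y hy) ?_ ?_ ?_
  · intro y hy
    have := (eq_A hc hU h0 hy).2.2.2.1
    exact Prod.ext rfl this.symm
  · intro y hy
    have := (eq_A hc' hU' h0 hy).2.2.2.1
    exact Prod.ext rfl this.symm
  · intro y hy
    rw [eq_wt P hc hU h0 a hy rfl rfl, eq_wt P hc' hU' h0 a (hmap hc hc' hU hU' y hy) rfl rfl]

end Pool.Agent.Helper77.UN
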